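import Pool.Agent.Results.MP_93b7f4_co.DiracFails

/-!
# The cases in which Dirac's construction preserves criticality
-/

set_option autoImplicit false

namespace Pool.Agent.Y54.DH

open Pool.Agent.Results.MP_93b7f4_co.DiracFails

/-- Two families of colours with the same coincidences differ by a permutation of the colours. -/
theorem perm_ext {I : Type} {K : ℕ} (f g : I → Fin K) (h : ∀ i j, f i = f j ↔ g i = g j) :
    ∃ τ : Equiv.Perm (Fin K), ∀ i, τ (f i) = g i := by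
  classical
  let F : {x // x ∈ Set.range f} → {x // x ∈ Set.range g} := fun x => ⟨g x.2.choose, ⟨_, rfl⟩⟩
  have hF : ∀ i, (F ⟨f i, ⟨i, rfl⟩⟩).1 = g i := by
    intro i
    exact (h _ _).1 (Exists.choose_spec (⟨i, rfl⟩ : ∃ y, f y = f i))
  have hFb : Function.Bijective F := by
    constructor
    · rintro ⟨_, i, rfl⟩ ⟨_, j, rfl⟩ e
      have e1 := congrArg Subtype.val e
      rw [hF, hF] at e1
      exact Subtype.ext ((h i j).2 e1)
    · rintro ⟨_, i, rfl⟩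
      exact ⟨⟨f i, i, rfl⟩, Subtype.ext (hF i)⟩
  refine ⟨(Equiv.ofBijective F hFb).extendSubtype, fun i => ?_⟩
  rw [Equiv.extendSubtype_apply_of_mem _ (f i) ⟨i, rfl⟩]
  exact hF i

section Pos

variable {V₁ V₂ : Type} {H₁ : Set V₁} {H₂ : Set V₂} (σ : H₁ ≃ H₂)

open Classical in
/-- Normal form of a vertex of the glued graph. -/
noncomputable def nf : Glued H₁ H₂ σ → V₁ ⊕ V₂ :=
  Quot.lift (fun a => Sum.elim (fun v => Sum.inl v)
    (fun w => if h : w ∈ H₂ then Sum.inl (σ.symm ⟨w, h⟩).1 else Sum.inr w) a) (by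
    rintro a b ⟨v, rfl, rfl⟩
    simp)

theorem nf₁ (v : V₁) : nf σ (inj₁ H₁ H₂ σ v) = Sum.inl v := rfl

open Classical in
theorem nf₂_mem (w : V₂) (h : w ∈ H₂) :
    nf σ (inj₂ H₁ H₂ σ w) = Sum.inl (σ.symm ⟨w, h⟩).1 := by
  have : nf σ (inj₂ H₁ H₂ σ w) =
    if h : w ∈ H₂ then Sum.inl (σ.symm ⟨w, h⟩).1 else Sum.inr w := rfl
  rw [this, dif_pos h]

open Classical in
theorem nf₂_notMem (w : V₂) (h : w ∉ H₂) : nf σ (inj₂ H₁ H₂ σ w) = Sum.inr w := by
  have : nf σ (inj₂ H₁ H₂ σ w) =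
    if h : w ∈ H₂ then Sum.inl (σ.symm ⟨w, h⟩).1 else Sum.inr w := rfl
  rw [this, dif_neg h]

theorem i₁_inj : Function.Injective (inj₁ H₁ H₂ σ) := by
  intro a b h
  have := congrArg (nf σ) h
  rw [nf₁, nf₁] at this
  exact Sum.inl_injective this

theorem i₂_inj : Function.Injective (inj₂ H₁ H₂ σ) := by
  intro a b h
  have := congrArg (nf σ) h
  by_cases ha : a ∈ H₂
  · by_cases hb : b ∈ H₂
    · rw [nf₂_mem σ a ha, nf₂_mem σ b hb] at this
      have h2 := σ.symm.injective (Subtype.ext (Sum.inl_injective this))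
      exact congrArg Subtype.val h2
    · rw [nf₂_mem σ a ha, nf₂_notMem σ b hb] at this
      simp at this
  · by_cases hb : b ∈ H₂
    · rw [nf₂_notMem σ a ha, nf₂_mem σ b hb] at this
      simp at this
    · rw [nf₂_notMem σ a ha, nf₂_notMem σ b hb] at this
      exact Sum.inr_injective this

theorem i_eq (v : H₁) : inj₁ H₁ H₂ σ v = inj₂ H₁ H₂ σ (σ v) := Quot.sound ⟨v, rfl, rfl⟩

theorem i₁₂ {a : V₁} {b : V₂} (h : inj₁ H₁ H₂ σ a = inj₂ H₁ H₂ σ b) :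
    ∃ (ha : a ∈ H₁), b = (σ ⟨a, ha⟩).1 := by
  have h2 := congrArg (nf σ) h
  by_cases hb : b ∈ H₂
  · rw [nf₁, nf₂_mem σ b hb] at h2
    have h3 : a = (σ.symm ⟨b, hb⟩).1 := Sum.inl_injective h2
    refine ⟨h3 ▸ (σ.symm ⟨b, hb⟩).2, ?_⟩
    have : (⟨a, h3 ▸ (σ.symm ⟨b, hb⟩).2⟩ : H₁) = σ.symm ⟨b, hb⟩ := Subtype.ext h3
    rw [this, Equiv.apply_symm_apply]
  · rw [nf₁, nf₂_notMem σ b hb] at h2
    simp at h2

variable {G₁ : SimpleGraph V₁} {G₂ : SimpleGraph V₂} {x₁ : H₁} {y₁ : V₁} {y₂ : V₂} {K : ℕ}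

theorem D_cases {z w : Glued H₁ H₂ σ} (h : (diracGraph G₁ G₂ H₁ H₂ σ x₁ y₁ y₂).Adj z w) :
    (∃ a b, G₁.Adj a b ∧ s(a, b) ≠ s(x₁.1, y₁) ∧ z = inj₁ H₁ H₂ σ a ∧ w = inj₁ H₁ H₂ σ b) ∨
    (∃ a b, G₂.Adj a b ∧ s(a, b) ≠ s((σ x₁).1, y₂) ∧ z = inj₂ H₁ H₂ σ a ∧ w = inj₂ H₁ H₂ σ b) ∨
    (z = inj₁ H₁ H₂ σ y₁ ∧ w = inj₂ H₁ H₂ σ y₂) ∨ (z = inj₂ H₁ H₂ σ y₂ ∧ w = inj₁ H₁ H₂ σ y₁) := by
  unfold diracGraph at h
  rw [SimpleGraph.sup_adj] at h
  rcases h with h | h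
  · rw [SimpleGraph.deleteEdges_adj, SimpleGraph.sup_adj] at h
    obtain ⟨h1 | h1, h2⟩ := h
    · rw [SimpleGraph.map_adj'] at h1
      obtain ⟨-, a, b, hab, rfl, rfl⟩ := h1
      refine Or.inl ⟨a, b, hab, ?_, rfl, rfl⟩
      intro h3
      apply h2
      left
      rw [Sym2.eq_iff] at h3 ⊢
      rcases h3 with ⟨rfl, rfl⟩ | ⟨rfl, rfl⟩
      · exact Or.inl ⟨rfl, rfl⟩
      · exact Or.inr ⟨rfl, rfl⟩
    · rw [SimpleGraph.map_adj'] at h1
      obtain ⟨-, a, b, hab, rfl, rfl⟩ := h1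
      refine Or.inr (Or.inl ⟨a, b, hab, ?_, rfl, rfl⟩)
      intro h3
      apply h2
      right
      rw [Set.mem_singleton_iff, i_eq]
      rw [Sym2.eq_iff] at h3 ⊢
      rcases h3 with ⟨rfl, rfl⟩ | ⟨rfl, rfl⟩
      · exact Or.inl ⟨rfl, rfl⟩
      · exact Or.inr ⟨rfl, rfl⟩
  · rw [SimpleGraph.edge_adj] at h
    rcases h.1 with ⟨rfl, rfl⟩ | ⟨rfl, rfl⟩
    · exact Or.inr (Or.inr (Or.inl ⟨rfl, rfl⟩))
    · exact Or.inr (Or.inr (Or.inr ⟨rfl, rfl⟩))

theorem D_one (hy₂ : y₂ ∉ H₂) {a b : V₁} (hab : G₁.Adj a b) (hne : s(a, b) ≠ s(x₁.1, y₁)) :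
    (diracGraph G₁ G₂ H₁ H₂ σ x₁ y₁ y₂).Adj (inj₁ H₁ H₂ σ a) (inj₁ H₁ H₂ σ b) := by
  have hno : ∀ c : V₁, inj₁ H₁ H₂ σ c ≠ inj₂ H₁ H₂ σ y₂ := by
    intro c h
    obtain ⟨hc, e⟩ := i₁₂ σ h
    exact hy₂ (e ▸ (σ ⟨c, hc⟩).2)
  unfold diracGraph
  rw [SimpleGraph.sup_adj]
  left
  rw [SimpleGraph.deleteEdges_adj]
  refine ⟨?_, ?_⟩
  · rw [SimpleGraph.sup_adj]
    left
    rw [SimpleGraph.map_adj']
    exact ⟨fun h => hab.ne (i₁_inj σ h), a, b, hab, rfl, rfl⟩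
  · rintro (h | h)
    · rw [Sym2.eq_iff] at h
      apply hne
      rw [Sym2.eq_iff]
      rcases h with h | h
      · exact Or.inl ⟨i₁_inj σ h.1, i₁_inj σ h.2⟩
      · exact Or.inr ⟨i₁_inj σ h.1, i₁_inj σ h.2⟩
    · rw [Set.mem_singleton_iff, Sym2.eq_iff] at h
      rcases h with h | h
      · exact hno _ h.2
      · exact hno _ h.1

theorem D_two (hy₁ : y₁ ∉ H₁) {a b : V₂} (hab : G₂.Adj a b)
    (hne : s(a, b) ≠ s((σ x₁).1, y₂)) :
    (diracGraph G₁ G₂ H₁ H₂ σ x₁ y₁ y₂).Adj (inj₂ H₁ H₂ σ a) (inj₂ H₁ H₂ σ b) := by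
  have hno : ∀ c : V₂, inj₂ H₁ H₂ σ c ≠ inj₁ H₁ H₂ σ y₁ := by
    intro c h
    obtain ⟨hc, e⟩ := i₁₂ σ h.symm
    exact hy₁ hc
  unfold diracGraph
  rw [SimpleGraph.sup_adj]
  left
  rw [SimpleGraph.deleteEdges_adj]
  refine ⟨?_, ?_⟩
  · rw [SimpleGraph.sup_adj]
    right
    rw [SimpleGraph.map_adj']
    exact ⟨fun h => hab.ne (i₂_inj σ h), a, b, hab, rfl, rfl⟩
  · rintro (h | h)
    · rw [Sym2.eq_iff] at h
      rcases h with h | h
      · exact hno _ h.2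
      · exact hno _ h.1
    · rw [Set.mem_singleton_iff, Sym2.eq_iff, i_eq] at h
      apply hne
      rw [Sym2.eq_iff]
      rcases h with h | h
      · exact Or.inl ⟨i₂_inj σ h.1, i₂_inj σ h.2⟩
      · exact Or.inr ⟨i₂_inj σ h.1, i₂_inj σ h.2⟩

theorem D_new (hy₂ : y₂ ∉ H₂) :
    (diracGraph G₁ G₂ H₁ H₂ σ x₁ y₁ y₂).Adj (inj₁ H₁ H₂ σ y₁) (inj₂ H₁ H₂ σ y₂) := by
  unfold diracGraph
  rw [SimpleGraph.sup_adj]
  right
  rw [SimpleGraph.edge_adj]
  refine ⟨Or.inl ⟨rfl, rfl⟩, ?_⟩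
  intro h
  obtain ⟨hc, e⟩ := i₁₂ σ h
  exact hy₂ (e ▸ (σ ⟨_, hc⟩).2)

/-- Gluing two colourings which match on `H`. -/
theorem glue_ok (c₁ : V₁ → Fin K) (c₂ : V₂ → Fin K) (τ : Equiv.Perm (Fin K))
    (e : Sym2 (Glued H₁ H₂ σ)) (hτ : ∀ v : H₁, τ (c₂ (σ v)) = c₁ v)
    (P1 : ∀ a b, G₁.Adj a b → s(a, b) ≠ s(x₁.1, y₁) →
      s(inj₁ H₁ H₂ σ a, inj₁ H₁ H₂ σ b) ≠ e → c₁ a ≠ c₁ b)
    (P2 : ∀ a b, G₂.Adj a b → s(a, b) ≠ s((σ x₁).1, y₂) →
      s(inj₂ H₁ H₂ σ a, inj₂ H₁ H₂ σ b) ≠ e → c₂ a ≠ c₂ b)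
    (P3 : s(inj₁ H₁ H₂ σ y₁, inj₂ H₁ H₂ σ y₂) ≠ e → c₁ y₁ ≠ τ (c₂ y₂)) :
    ∃ C : Glued H₁ H₂ σ → Fin K, ∀ z w, (diracGraph G₁ G₂ H₁ H₂ σ x₁ y₁ y₂).Adj z w →
      s(z, w) ≠ e → C z ≠ C w := by
  refine ⟨Quot.lift (fun a => Sum.elim c₁ (fun v => τ (c₂ v)) a) (by
    rintro a b ⟨v, rfl, rfl⟩
    exact (hτ v).symm), ?_⟩
  intro z w hzw hne
  rcases D_cases σ hzw with ⟨a, b, hab, h1, rfl, rfl⟩ | ⟨a, b, hab, h1, rfl, rfl⟩ | ⟨rfl, rfl⟩ |
    ⟨rfl, rfl⟩
  · exact P1 a b hab h1 hne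
  · intro h
    exact P2 a b hab h1 hne (τ.injective h)
  · exact P3 hne
  · exact (P3 (by rw [Sym2.eq_swap]; exact hne)).symm

theorem ends_eq {V : Type} {G : SimpleGraph V} (hG : IsCritical G (K + 1)) {a b : V}
    {c : V → Fin K} (hc : ∀ x y, G.Adj x y → s(x, y) ≠ s(a, b) → c x ≠ c y) : c a = c b := by
  by_contra hne
  apply not_colorable_of_isCritical hG
  refine colorable_of_fun c ?_
  intro x y hxy
  by_cases h : s(x, y) = s(a, b)
  · rw [Sym2.eq_iff] at h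
    rcases h with ⟨rfl, rfl⟩ | ⟨rfl, rfl⟩
    · exact hne
    · exact fun h => hne h.symm
  · exact hc x y hxy h

/-- A vertex with one neighbour has another one. -/
theorem other_nbr {V : Type} {G : SimpleGraph V} (hK : 2 ≤ K) (hG : IsCritical G (K + 1)) {x y : V}
    (hxy : G.Adj x y) : ∃ w, w ≠ y ∧ G.Adj x w := by
  classical
  by_contra hcon
  push Not at hcon
  obtain ⟨c, hc⟩ := exists_col_of_isCritical hG x y hxy
  have hcxy := ends_eq hG hc
  obtain ⟨t, ht⟩ : ∃ t : Fin K, t ≠ c y := by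
    by_contra h
    push Not at h
    have h0 := h ⟨0, by omega⟩
    have h1 := h ⟨1, by omega⟩
    have := congrArg Fin.val (h0.trans h1.symm)
    simp at this
  apply not_colorable_of_isCritical hG
  refine colorable_of_fun (fun v => if v = x then t else c v) ?_
  have key : ∀ v, G.Adj x v → v = y := by
    intro v hv
    by_contra h
    exact hcon v h hv
  intro u v huv
  by_cases hu : u = x
  · subst hu
    have hv := key v huv
    subst hv
    simp only [if_true, huv.ne', if_false]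
    exact ht
  · by_cases hv : v = x
    · subst hv
      have hu' := key u huv.symm
      subst hu'
      simp only [if_true, hu, if_false]
      exact ht.symm
    · simp only [hu, hv, if_false]
      refine hc u v huv ?_
      intro h
      rw [Sym2.eq_iff] at h
      rcases h with h | h
      · exact hu h.1
      · exact hv h.2

/-- There are no isolated vertices. -/
theorem has_nbr {V : Type} {G : SimpleGraph V} (hK : 1 ≤ K) (hG : IsCritical G (K + 1)) (v : V) :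
    ∃ w, G.Adj v w := by
  classical
  by_contra hcon
  push Not at hcon
  let S : G.Subgraph :=
    { verts := {v}ᶜ
      Adj := fun x y => G.Adj x y
      adj_sub := fun h => h
      edge_vert := fun {x y} h hx => by
        rw [Set.mem_singleton_iff] at hx
        subst hx
        exact hcon _ h
      symm := ⟨fun x y h => h.symm⟩ }
  have hS : S ≠ ⊤ := by
    intro he
    have : v ∈ S.verts := by rw [he]; trivial
    exact this rfl
  have h1 := hG.2 S hS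
  have h2 : S.coe.chromaticNumber ≤ (K : ℕ∞) := by
    have : S.coe.chromaticNumber < (K : ℕ∞) + 1 := by exact_mod_cast h1
    exact (ENat.lt_add_one_iff (ENat.natCast_ne_top K)).1 this
  rw [SimpleGraph.chromaticNumber_le_iff_colorable] at h2
  obtain ⟨C⟩ := h2
  apply not_colorable_of_isCritical hG
  refine colorable_of_fun (fun u => if h : u = v then ⟨0, by omega⟩ else C ⟨u, h⟩) ?_
  intro a b hab
  have ha : a ≠ v := by rintro rfl; exact hcon b hab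
  have hb : b ≠ v := by rintro rfl; exact hcon a hab.symm
  simp only [ha, hb, dif_neg, not_false_eq_true]
  exact C.valid hab

/-- Colours on a clique. -/
theorem clique_col {V : Type} {G : SimpleGraph V} {H : Set V} (hH : G.IsClique H) {a b : V}
    {c : V → Fin K} (hc : ∀ x y, G.Adj x y → s(x, y) ≠ s(a, b) → c x ≠ c y)
    (hab : ¬ (a ∈ H ∧ b ∈ H)) (v w : V) (hv : v ∈ H) (hw : w ∈ H) : c v = c w ↔ v = w := by
  constructor
  · intro h
    by_contra hne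
    refine hc v w (hH hv hw hne) ?_ h
    intro h2
    apply hab
    rw [Sym2.eq_iff] at h2
    rcases h2 with ⟨rfl, rfl⟩ | ⟨rfl, rfl⟩
    · exact ⟨hv, hw⟩
    · exact ⟨hw, hv⟩
  · rintro rfl; rfl

theorem clique_col2 {V : Type} {G : SimpleGraph V} {H : Set V} (hH : G.IsClique H) {a b : V}
    {c : V → Fin K} (hc : ∀ x y, G.Adj x y → s(x, y) ≠ s(a, b) → c x ≠ c y)
    (hab : c a = c b) (v w : V) (hv : v ∈ H) (hw : w ∈ H) :
    c v = c w ↔ (v = w ∨ s(v, w) = s(a, b)) := by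
  constructor
  · intro h
    by_contra hne
    push Not at hne
    exact hc v w (hH hv hw hne.1) hne.2 h
  · rintro (rfl | h)
    · rfl
    · rw [Sym2.eq_iff] at h
      rcases h with ⟨rfl, rfl⟩ | ⟨rfl, rfl⟩
      · exact hab
      · exact hab.symm

theorem pos_crit [Finite V₁] {h : ℕ} (hh : h + 1 ≤ K) (hK : 2 ≤ K)
    (hG₁ : IsCritical G₁ (K + 1)) (hG₂ : IsCritical G₂ (K + 1)) (hc₁ : G₁.IsClique H₁)
    (hn₁ : H₁.ncard = h) (hc₂ : G₂.IsClique H₂) (hy₁ : y₁ ∉ H₁) (hxy₁ : G₁.Adj x₁ y₁)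
    (hy₂ : y₂ ∉ H₂) (hxy₂ : G₂.Adj (σ x₁) y₂)
    (hcase : h ≤ 2 ∨ ∀ v : H₁, v ≠ x₁ → G₁.Adj v y₁ ∨ G₂.Adj (σ v) y₂) :
    IsCritical (diracGraph G₁ G₂ H₁ H₂ σ x₁ y₁ y₂) (K + 1) := by
  classical
  have hsub : ∀ {v w : H₁}, v.1 = w.1 ↔ v = w := fun {v w} => Subtype.ext_iff.symm
  -- deletion of an edge inside `H`
  have kH : ∀ a b : H₁, a ≠ b → ∃ C : Glued H₁ H₂ σ → Fin K, ∀ z w,
      (diracGraph G₁ G₂ H₁ H₂ σ x₁ y₁ y₂).Adj z w →
      s(z, w) ≠ s(inj₁ H₁ H₂ σ a, inj₁ H₁ H₂ σ b) → C z ≠ C w := by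
    intro a b hab
    have hab₁ : G₁.Adj a b := hc₁ a.2 b.2 (fun h => hab (hsub.1 h))
    have hσab : σ a ≠ σ b := fun h => hab (σ.injective h)
    have hab₂ : G₂.Adj (σ a) (σ b) := hc₂ (σ a).2 (σ b).2 (fun h => hσab (Subtype.ext h))
    obtain ⟨c₁, hcol₁⟩ := exists_col_of_isCritical hG₁ _ _ hab₁
    obtain ⟨c₂, hcol₂⟩ := exists_col_of_isCritical hG₂ _ _ hab₂
    have e₁ := ends_eq hG₁ hcol₁
    have e₂ := ends_eq hG₂ hcol₂
    have m₁ : ∀ v w : H₁, c₁ v = c₁ w ↔ (v = w ∨ s(v, w) = s(a, b)) := by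
      intro v w
      rw [clique_col2 hc₁ hcol₁ e₁ v w v.2 w.2]
      simp only [Sym2.eq_iff, Subtype.ext_iff]
    have m₂ : ∀ v w : H₁, c₂ (σ v) = c₂ (σ w) ↔ (v = w ∨ s(v, w) = s(a, b)) := by
      intro v w
      rw [clique_col2 hc₂ hcol₂ e₂ (σ v) (σ w) (σ v).2 (σ w).2]
      simp only [Sym2.eq_iff, ← Subtype.ext_iff, σ.injective.eq_iff]
    have hy₁x : c₁ y₁ ≠ c₁ x₁ := by
      refine hcol₁ _ _ hxy₁.symm ?_
      intro h
      rw [Sym2.eq_iff] at h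
      rcases h with h | h
      · exact hy₁ (h.1 ▸ a.2)
      · exact hy₁ (h.1 ▸ b.2)
    have hy₁v : ∀ v : H₁, G₁.Adj v y₁ → c₁ y₁ ≠ c₁ v := by
      intro v hv
      refine hcol₁ _ _ hv.symm ?_
      intro h
      rw [Sym2.eq_iff] at h
      rcases h with h | h
      · exact hy₁ (h.1 ▸ a.2)
      · exact hy₁ (h.1 ▸ b.2)
    have hy₂v : ∀ v : H₁, G₂.Adj (σ v) y₂ → c₂ y₂ ≠ c₂ (σ v) := by
      intro v hv
      refine hcol₂ _ _ hv.symm ?_
      intro h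
      rw [Sym2.eq_iff] at h
      rcases h with h | h
      · exact hy₂ (h.1 ▸ (σ a).2)
      · exact hy₂ (h.1 ▸ (σ b).2)
    -- the permutation
    obtain ⟨τ, hτ, hτy⟩ : ∃ τ : Equiv.Perm (Fin K), (∀ v : H₁, τ (c₂ (σ v)) = c₁ v) ∧
        c₁ y₁ ≠ τ (c₂ y₂) := by
      by_cases hex₂ : ∃ r : H₁, c₂ y₂ = c₂ (σ r)
      · obtain ⟨τ, hτ⟩ := perm_ext (fun v : H₁ => c₂ (σ v)) (fun v : H₁ => c₁ v)
          (fun v w => (m₂ v w).trans (m₁ v w).symm)
        refine ⟨τ, hτ, ?_⟩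
        obtain ⟨r, hr⟩ := hex₂
        intro hcon
        have hr₁ : c₁ y₁ = c₁ r := by
          rw [hcon, hr]; exact hτ r
        have hrx : r ≠ x₁ := by
          rintro rfl
          exact hy₁x hr₁
        rcases hcase with h2 | h0
        · -- at most two vertices in `H`
          have three : ∀ v : H₁, v = a ∨ v = b := by
            intro v
            by_contra hcon2
            push Not at hcon2
            have : 2 < H₁.ncard := (Set.two_lt_ncard_iff (Set.toFinite _)).2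
              ⟨v, a, b, v.2, a.2, b.2, fun h => hcon2.1 (hsub.1 h), fun h => hcon2.2 (hsub.1 h),
                fun h => hab (hsub.1 h)⟩
            omega
          have hcr : c₁ r = c₁ x₁ := by
            rw [m₁]
            rcases three r with hr' | hr' <;> rcases three x₁ with hx' | hx' <;>
              rw [hr', hx']
            · exact Or.inl rfl
            · exact Or.inr rfl
            · exact Or.inr Sym2.eq_swap
            · exact Or.inl rfl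
          exact hy₁x (hr₁.trans hcr)
        · rcases h0 r hrx with h1 | h1
          · exact hy₁v r h1 hr₁
          · exact hy₂v r h1 hr
      · push Not at hex₂
        by_cases hex₁ : ∃ r : H₁, c₁ y₁ = c₁ r
        · obtain ⟨τ, hτ⟩ := perm_ext (fun v : H₁ => c₂ (σ v)) (fun v : H₁ => c₁ v)
            (fun v w => (m₂ v w).trans (m₁ v w).symm)
          refine ⟨τ, hτ, ?_⟩
          obtain ⟨r, hr⟩ := hex₁
          intro hcon
          apply hex₂ r
          have h5 := hτ r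
          rw [← hr, hcon] at h5
          exact (τ.injective h5).symm
        · push Not at hex₁
          -- a free colour
          obtain ⟨β, hβ, hβy⟩ : ∃ β : Fin K, (∀ v : H₁, β ≠ c₁ v) ∧ β ≠ c₁ y₁ := by
            by_contra hcon
            push Not at hcon
            have hall : (Set.univ : Set (Fin K)) ⊆ c₁ '' (H₁ \ {a.1}) ∪ {c₁ y₁} := by
              intro β _
              by_cases hb : ∀ v : H₁, β ≠ c₁ v
              · exact Or.inr (hcon β hb)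
              · push Not at hb
                obtain ⟨v, hv⟩ := hb
                left
                by_cases hva : v = a
                · refine ⟨b, ⟨b.2, fun h => hab (hsub.1 h).symm⟩, ?_⟩
                  rw [hv, hva]; exact e₁.symm
                · exact ⟨v, ⟨v.2, fun h => hva (hsub.1 h)⟩, hv.symm⟩
            have h1 := Set.ncard_le_ncard hall (Set.toFinite _)
            have h2 := Set.ncard_union_le (c₁ '' (H₁ \ {a.1})) {c₁ y₁}
            have h3 := Set.ncard_image_le (f := c₁) (Set.toFinite (H₁ \ {a.1}))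
            have h4 := Set.ncard_sdiff_singleton_of_mem a.2
            rw [Set.ncard_univ, Nat.card_eq_fintype_card, Fintype.card_fin] at h1
            rw [Set.ncard_singleton] at h2
            have h5 : 0 < H₁.ncard := (Set.ncard_pos (Set.toFinite _)).2 ⟨a, a.2⟩
            omega
          obtain ⟨τ, hτ⟩ := perm_ext
            (fun v : Option H₁ => v.elim (c₂ y₂) (fun v => c₂ (σ v)))
            (fun v : Option H₁ => v.elim β (fun v => c₁ v)) (by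
              rintro (_ | v) (_ | w)
              · simp
              · constructor
                · intro h; exact absurd h (hex₂ w)
                · intro h; exact absurd h (hβ w)
              · constructor
                · intro h; exact absurd h.symm (hex₂ v)
                · intro h; exact absurd h.symm (hβ v)
              · exact (m₂ v w).trans (m₁ v w).symm)
          refine ⟨τ, fun v => hτ (some v), ?_⟩
          have h6 : τ (c₂ y₂) = β := hτ none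
          rw [h6]
          exact hβy.symm
    refine glue_ok σ c₁ c₂ τ _ hτ ?_ ?_ (fun _ => hτy)
    · intro p q hpq _ hne
      refine hcol₁ p q hpq ?_
      intro h
      apply hne
      rw [Sym2.eq_iff] at h ⊢
      rcases h with ⟨rfl, rfl⟩ | ⟨rfl, rfl⟩
      · exact Or.inl ⟨rfl, rfl⟩
      · exact Or.inr ⟨rfl, rfl⟩
    · intro p q hpq _ hne
      refine hcol₂ p q hpq ?_
      intro h
      apply hne
      rw [i_eq, i_eq]
      rw [Sym2.eq_iff] at h ⊢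
      rcases h with ⟨rfl, rfl⟩ | ⟨rfl, rfl⟩
      · exact Or.inl ⟨rfl, rfl⟩
      · exact Or.inr ⟨rfl, rfl⟩
  -- deletion of an edge of the first graph
  have kA : ∀ a b : V₁, G₁.Adj a b → s(a, b) ≠ s(x₁.1, y₁) → ∃ C : Glued H₁ H₂ σ → Fin K,
      ∀ z w, (diracGraph G₁ G₂ H₁ H₂ σ x₁ y₁ y₂).Adj z w →
      s(z, w) ≠ s(inj₁ H₁ H₂ σ a, inj₁ H₁ H₂ σ b) → C z ≠ C w := by
    intro a b hab hne
    by_cases hin : a ∈ H₁ ∧ b ∈ H₁
    · exact kH ⟨a, hin.1⟩ ⟨b, hin.2⟩ (fun h => hab.ne (congrArg Subtype.val h))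
    · obtain ⟨c₁, hcol₁⟩ := exists_col_of_isCritical hG₁ _ _ hab
      obtain ⟨c₂, hcol₂⟩ := exists_col_of_isCritical hG₂ _ _ hxy₂
      have e₂ := ends_eq hG₂ hcol₂
      obtain ⟨τ, hτ⟩ := perm_ext (fun v : H₁ => c₂ (σ v)) (fun v : H₁ => c₁ v) (fun v w => by
        rw [clique_col hc₁ hcol₁ hin v w v.2 w.2,
          clique_col hc₂ hcol₂ (fun h => hy₂ h.2) (σ v) (σ w) (σ v).2 (σ w).2]
        rw [← Subtype.ext_iff, ← Subtype.ext_iff, σ.injective.eq_iff])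
      refine glue_ok σ c₁ c₂ τ _ hτ ?_ ?_ ?_
      · intro p q hpq _ hne2
        refine hcol₁ p q hpq ?_
        intro h
        apply hne2
        rw [Sym2.eq_iff] at h ⊢
        rcases h with ⟨rfl, rfl⟩ | ⟨rfl, rfl⟩
        · exact Or.inl ⟨rfl, rfl⟩
        · exact Or.inr ⟨rfl, rfl⟩
      · intro p q hpq h1 _
        exact hcol₂ p q hpq h1
      · intro _
        rw [← e₂, hτ x₁]
        exact (hcol₁ _ _ hxy₁ hne.symm).symm
  -- deletion of an edge of the second graph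
  have kB : ∀ a b : V₂, G₂.Adj a b → s(a, b) ≠ s((σ x₁).1, y₂) → ∃ C : Glued H₁ H₂ σ → Fin K,
      ∀ z w, (diracGraph G₁ G₂ H₁ H₂ σ x₁ y₁ y₂).Adj z w →
      s(z, w) ≠ s(inj₂ H₁ H₂ σ a, inj₂ H₁ H₂ σ b) → C z ≠ C w := by
    intro a b hab hne
    by_cases hin : a ∈ H₂ ∧ b ∈ H₂
    · have h1 := kH (σ.symm ⟨a, hin.1⟩) (σ.symm ⟨b, hin.2⟩)
        (fun h => hab.ne (congrArg Subtype.val (σ.symm.injective h)))
      rw [i_eq, i_eq, Equiv.apply_symm_apply, Equiv.apply_symm_apply] at h1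
      exact h1
    · obtain ⟨c₁, hcol₁⟩ := exists_col_of_isCritical hG₁ _ _ hxy₁
      obtain ⟨c₂, hcol₂⟩ := exists_col_of_isCritical hG₂ _ _ hab
      have e₁ := ends_eq hG₁ hcol₁
      obtain ⟨τ, hτ⟩ := perm_ext (fun v : H₁ => c₂ (σ v)) (fun v : H₁ => c₁ v) (fun v w => by
        rw [clique_col hc₁ hcol₁ (fun h => hy₁ h.2) v w v.2 w.2,
          clique_col hc₂ hcol₂ hin (σ v) (σ w) (σ v).2 (σ w).2]
        rw [← Subtype.ext_iff, ← Subtype.ext_iff, σ.injective.eq_iff])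
      refine glue_ok σ c₁ c₂ τ _ hτ ?_ ?_ ?_
      · intro p q hpq h1 _
        exact hcol₁ p q hpq h1
      · intro p q hpq _ hne2
        refine hcol₂ p q hpq ?_
        intro h
        apply hne2
        rw [Sym2.eq_iff] at h ⊢
        rcases h with ⟨rfl, rfl⟩ | ⟨rfl, rfl⟩
        · exact Or.inl ⟨rfl, rfl⟩
        · exact Or.inr ⟨rfl, rfl⟩
      · intro _ h
        rw [← e₁, ← hτ x₁] at h
        exact hcol₂ _ _ hxy₂ hne.symm (τ.injective h)
  -- deletion of the new edge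
  have kC : ∃ C : Glued H₁ H₂ σ → Fin K, ∀ z w,
      (diracGraph G₁ G₂ H₁ H₂ σ x₁ y₁ y₂).Adj z w →
      s(z, w) ≠ s(inj₁ H₁ H₂ σ y₁, inj₂ H₁ H₂ σ y₂) → C z ≠ C w := by
    obtain ⟨c₁, hcol₁⟩ := exists_col_of_isCritical hG₁ _ _ hxy₁
    obtain ⟨c₂, hcol₂⟩ := exists_col_of_isCritical hG₂ _ _ hxy₂
    obtain ⟨τ, hτ⟩ := perm_ext (fun v : H₁ => c₂ (σ v)) (fun v : H₁ => c₁ v) (fun v w => by
      rw [clique_col hc₁ hcol₁ (fun h => hy₁ h.2) v w v.2 w.2,
        clique_col hc₂ hcol₂ (fun h => hy₂ h.2) (σ v) (σ w) (σ v).2 (σ w).2]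
      rw [← Subtype.ext_iff, ← Subtype.ext_iff, σ.injective.eq_iff])
    exact glue_ok σ c₁ c₂ τ _ hτ (fun p q hpq h1 _ => hcol₁ p q hpq h1)
      (fun p q hpq h1 _ => hcol₂ p q hpq h1) (fun h => absurd rfl h)
  apply Crit.isCritical
  refine ⟨?_, ?_, ?_, ?_⟩
  · obtain ⟨C, hC⟩ := kC
    refine colorable_of_fun
      (fun z => if z = inj₁ H₁ H₂ σ y₁ then Fin.last K else (C z).castSucc) ?_
    intro z w hzw
    by_cases hz : z = inj₁ H₁ H₂ σ y₁
    · have hw : w ≠ inj₁ H₁ H₂ σ y₁ := by rintro rfl; exact hzw.ne hz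
      simp only [hz, hw, if_true, if_false]
      exact (Fin.castSucc_lt_last _).ne'
    · by_cases hw : w = inj₁ H₁ H₂ σ y₁
      · simp only [hz, hw, if_true, if_false]
        exact (Fin.castSucc_lt_last _).ne
      · simp only [hz, hw, if_false]
        intro h
        refine hC z w hzw ?_ (Fin.castSucc_injective _ h)
        intro h2
        rw [Sym2.eq_iff] at h2
        rcases h2 with h2 | h2
        · exact hz h2.1
        · exact hw h2.2
  · rintro ⟨C⟩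
    have e₁ : C (inj₁ H₁ H₂ σ x₁) = C (inj₁ H₁ H₂ σ y₁) :=
      ends_eq hG₁ (c := fun v => C (inj₁ H₁ H₂ σ v))
        (fun a b hab hne => C.valid (D_one σ hy₂ hab hne))
    have e₂ : C (inj₂ H₁ H₂ σ (σ x₁)) = C (inj₂ H₁ H₂ σ y₂) :=
      ends_eq hG₂ (c := fun v => C (inj₂ H₁ H₂ σ v))
        (fun a b hab hne => C.valid (D_two σ hy₁ hab hne))
    rw [i_eq, e₂] at e₁
    exact C.valid (D_new (G₁ := G₁) (G₂ := G₂) (x₁ := x₁) (y₁ := y₁) σ hy₂) e₁.symm
  · intro z w hzw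
    rcases D_cases σ hzw with ⟨a, b, hab, h1, rfl, rfl⟩ | ⟨a, b, hab, h1, rfl, rfl⟩ | ⟨rfl, rfl⟩ |
      ⟨rfl, rfl⟩
    · exact kA a b hab h1
    · exact kB a b hab h1
    · exact kC
    · rw [Sym2.eq_swap]; exact kC
  · intro z
    obtain ⟨v, rfl⟩ := Quot.exists_rep z
    rcases v with v | v
    · change ∃ w, (diracGraph G₁ G₂ H₁ H₂ σ x₁ y₁ y₂).Adj (inj₁ H₁ H₂ σ v) w
      by_cases hvy : v = y₁
      · rw [hvy]; exact ⟨_, D_new σ hy₂⟩
      · by_cases hvx : v = x₁.1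
        · obtain ⟨w, hw, hxw⟩ := other_nbr hK hG₁ hxy₁
          rw [hvx]
          refine ⟨_, D_one σ hy₂ hxw ?_⟩
          intro h
          rw [Sym2.eq_iff] at h
          rcases h with h | h
          · exact hw h.2
          · exact hxy₁.ne h.1
        · obtain ⟨w, hw⟩ := has_nbr (by omega) hG₁ v
          refine ⟨_, D_one σ hy₂ hw ?_⟩
          intro h
          rw [Sym2.eq_iff] at h
          rcases h with h | h
          · exact hvx h.1
          · exact hvy h.1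
    · change ∃ w, (diracGraph G₁ G₂ H₁ H₂ σ x₁ y₁ y₂).Adj (inj₂ H₁ H₂ σ v) w
      by_cases hvy : v = y₂
      · rw [hvy]; exact ⟨_, (D_new σ hy₂).symm⟩
      · by_cases hvx : v = (σ x₁).1
        · obtain ⟨w, hw, hxw⟩ := other_nbr hK hG₂ hxy₂
          rw [hvx]
          refine ⟨_, D_two σ hy₁ hxw ?_⟩
          intro h
          rw [Sym2.eq_iff] at h
          rcases h with h | h
          · exact hw h.2
          · exact hxy₂.ne h.1
        · obtain ⟨w, hw⟩ := has_nbr (by omega) hG₂ v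
          refine ⟨_, D_two σ hy₁ hw ?_⟩
          intro h
          rw [Sym2.eq_iff] at h
          rcases h with h | h
          · exact hvx h.1
          · exact hvy h.1

/-- Adjacency in the glued graph between `H` and the two special vertices. -/
theorem adj_y₁ (hy₁ : y₁ ∉ H₁) (hy₂ : y₂ ∉ H₂) {v : H₁}
    (h : (diracGraph G₁ G₂ H₁ H₂ σ x₁ y₁ y₂).Adj (inj₁ H₁ H₂ σ v) (inj₁ H₁ H₂ σ y₁)) :
    G₁.Adj v y₁ := by
  rcases D_cases σ h with ⟨a, b, hab, -, ea, eb⟩ | ⟨a, b, hab, -, ea, eb⟩ | ⟨ea, -⟩ | ⟨ea, -⟩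
  · rw [i₁_inj σ ea, i₁_inj σ eb]; exact hab
  · exact absurd (i₁₂ σ eb).1 hy₁
  · exact absurd (i₁_inj σ ea ▸ v.2) hy₁
  · obtain ⟨hb, e⟩ := i₁₂ σ ea
    exact absurd (e ▸ (σ ⟨_, hb⟩).2) hy₂

theorem adj_y₂ (hy₁ : y₁ ∉ H₁) (hy₂ : y₂ ∉ H₂) {v : H₁}
    (h : (diracGraph G₁ G₂ H₁ H₂ σ x₁ y₁ y₂).Adj (inj₁ H₁ H₂ σ v) (inj₂ H₁ H₂ σ y₂)) :
    G₂.Adj (σ v) y₂ := by
  rcases D_cases σ h with ⟨a, b, hab, -, ea, eb⟩ | ⟨a, b, hab, -, ea, eb⟩ | ⟨ea, -⟩ | ⟨ea, -⟩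
  · obtain ⟨hb, e⟩ := i₁₂ σ eb.symm
    exact absurd (e ▸ (σ ⟨b, hb⟩).2) hy₂
  · rw [i_eq] at ea
    rw [i₂_inj σ ea, i₂_inj σ eb]; exact hab
  · exact absurd (i₁_inj σ ea ▸ v.2) hy₁
  · rw [i_eq] at ea
    exact absurd (i₂_inj σ ea ▸ (σ v).2) hy₂

end Pos

end Pool.Agent.Y54.DH
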