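import Pool.Agent.Y54.DH.Cfg

/-!
# The base configuration and all configurations
-/

set_option autoImplicit false

namespace Pool.Agent.Y54.DH

open Pool.Agent.Results.MP_93b7f4_co.DiracFails

/-- Neighbourhoods of the base graph as bit masks. -/
def mask : List ℕ := [686, 285, 947, 451, 838, 325, 824, 525, 126, 213]

/-- Adjacency of the base graph. -/
def adjB (i j : ℕ) : Bool := (mask.getD i 0).testBit j

/-- The base graph: ten vertices and 26 edges. -/
def F : SimpleGraph (Fin 10) where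
  Adj i j := adjB i.val j.val = true
  symm := ⟨by decide +kernel⟩
  loopless := ⟨by decide +kernel⟩

/-- No `4`-colouring of the base graph. -/
theorem F_not : ¬ F.Colorable 4 := by
  rintro ⟨C⟩
  let f : ℕ → ℕ := fun i => if h : i < 10 then (C ⟨i, h⟩).val else 0
  have hf : ∀ i < 10, f i < 4 := by
    intro i hi
    simp only [f, hi, dite_true]
    exact (C ⟨i, hi⟩).isLt
  have h := dfs_sound 4 (okOf adjB) f 10 hf ?_ 10 0 rfl
  · have h2 : dfs 4 (okOf adjB) 10 [] = false := by decide +kernel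
    exact absurd (h2.symm.trans h) (by simp)
  · intro i hi
    apply okOf_pre
    intro j hj he
    simp only [f, hi, (by omega : j < 10), dite_true]
    intro hc
    exact C.valid (show F.Adj ⟨i, hi⟩ ⟨j, by omega⟩ from he) (Fin.ext hc).symm

/-- Conflict relation of the base graph without the edges `0 3` and `0 1`, with the vertices `2`
and `3` forced to be different. -/
def adjS (i j : ℕ) : Bool :=
  (adjB i j && !(i == 0 && j == 3) && !(i == 3 && j == 0) && !(i == 0 && j == 1) &&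
    !(i == 1 && j == 0)) || (i == 3 && j == 2)

/-- As in `okOf`, and moreover the colours of `0` and `1` agree. -/
def okS (cs : List ℕ) (c : ℕ) : Bool :=
  okOf adjS cs c && (!(cs.length == 1) || cs.getD 0 0 == c)

theorem F_forced (c : Fin 10 → Fin 4)
    (hc : ∀ a b, F.Adj a b → s(a, b) ≠ s(0, 3) → s(a, b) ≠ s(0, 1) → c a ≠ c b)
    (h12 : c 0 = c 1) : c 3 = c 2 := by
  by_contra hne
  let f : ℕ → ℕ := fun i => if h : i < 10 then (c ⟨i, h⟩).val else 0
  have hf : ∀ i < 10, f i < 4 := by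
    intro i hi
    simp only [f, hi, dite_true]
    exact (c ⟨i, hi⟩).isLt
  have h := dfs_sound 4 okS f 10 hf ?_ 10 0 rfl
  · have h2 : dfs 4 okS 10 [] = false := by decide +kernel
    exact absurd (h2.symm.trans h) (by simp)
  · intro i hi
    unfold okS
    rw [Bool.and_eq_true]
    constructor
    · apply okOf_pre
      intro j hj he
      have hj10 : j < 10 := by omega
      simp only [f, hi, hj10, dite_true]
      intro hcc
      have hcc' : c ⟨j, hj10⟩ = c ⟨i, hi⟩ := Fin.ext hcc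
      unfold adjS at he
      rw [Bool.or_eq_true] at he
      rcases he with he | he
      · simp only [Bool.and_eq_true, Bool.not_eq_true', Bool.and_eq_false_iff, beq_eq_false_iff_ne,
          ne_eq] at he
        obtain ⟨⟨⟨⟨he, h03⟩, h30⟩, h12'⟩, h21⟩ := he
        refine hc ⟨i, hi⟩ ⟨j, hj10⟩ he ?_ ?_ hcc'.symm
        · intro hs
          rw [Sym2.eq_iff] at hs
          simp only [Fin.ext_iff, Fin.val_zero] at hs
          change (i = 0 ∧ j = 3) ∨ (i = 3 ∧ j = 0) at hs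
          omega
        · intro hs
          rw [Sym2.eq_iff] at hs
          simp only [Fin.ext_iff] at hs
          change (i = 0 ∧ j = 1) ∨ (i = 1 ∧ j = 0) at hs
          omega
      · simp only [Bool.and_eq_true, beq_iff_eq] at he
        obtain ⟨rfl, rfl⟩ := he
        exact hne hcc'.symm
    · by_cases hi2 : i = 1
      · subst hi2
        simp only [pre, List.getD_cons_zero]
        simp only [f]
        simp
        exact congrArg Fin.val h12
      · simp [pre_length, hi2]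

/-- For each edge a colouring in which this is the only edge with equally coloured ends. -/
def tab : List (ℕ × ℕ × List ℕ) :=
  [(0, 1, [0, 0, 1, 1, 2, 2, 0, 2, 3, 3]), (0, 2, [0, 1, 0, 2, 2, 1, 0, 1, 3, 3]),
   (0, 3, [0, 1, 2, 0, 0, 1, 2, 1, 3, 3]), (0, 5, [0, 1, 2, 2, 0, 0, 1, 1, 3, 3]),
   (0, 7, [0, 1, 2, 3, 3, 1, 2, 0, 0, 1]), (0, 9, [0, 1, 2, 2, 3, 3, 1, 1, 0, 0]),
   (1, 2, [0, 1, 1, 2, 0, 2, 1, 3, 3, 2]), (1, 3, [0, 1, 2, 1, 0, 1, 2, 3, 3, 1]),
   (1, 4, [0, 1, 2, 2, 1, 1, 0, 1, 3, 3]), (1, 8, [0, 1, 2, 2, 3, 3, 0, 3, 1, 1]),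
   (2, 4, [0, 1, 2, 2, 2, 1, 0, 1, 3, 3]), (2, 5, [0, 1, 2, 2, 0, 2, 1, 1, 3, 3]),
   (2, 7, [0, 1, 2, 3, 3, 1, 2, 2, 0, 1]), (2, 8, [0, 1, 2, 3, 0, 3, 1, 1, 2, 3]),
   (2, 9, [0, 1, 2, 2, 3, 3, 1, 1, 0, 2]), (3, 6, [0, 1, 2, 2, 0, 1, 2, 1, 3, 3]),
   (3, 7, [0, 1, 2, 3, 3, 1, 2, 3, 0, 1]), (3, 8, [0, 1, 2, 3, 0, 1, 2, 1, 3, 3]),
   (4, 6, [0, 1, 2, 2, 0, 1, 0, 1, 3, 3]), (4, 8, [0, 1, 2, 2, 0, 1, 3, 3, 0, 1]),
   (4, 9, [0, 1, 2, 2, 3, 3, 1, 1, 0, 3]), (5, 6, [0, 1, 2, 2, 0, 1, 1, 1, 3, 3]),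
   (5, 8, [0, 1, 2, 2, 0, 3, 1, 1, 3, 3]), (6, 8, [0, 1, 2, 2, 0, 1, 3, 3, 3, 1]),
   (6, 9, [0, 1, 2, 2, 3, 3, 1, 3, 0, 1]), (7, 9, [0, 1, 2, 3, 3, 1, 2, 1, 0, 1])]

/-- Check of one entry of the table. -/
def tabOk (t : ℕ × ℕ × List ℕ) : Bool :=
  (List.range 10).all (fun i => (List.range 10).all (fun j => !(adjB i j) ||
    ((i == t.1 && j == t.2.1) || (i == t.2.1 && j == t.1)) ||
      !((t.2.2.getD i 0) % 4 == (t.2.2.getD j 0) % 4)))

theorem tab_all : tab.all tabOk = true := by decide +kernel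

theorem tab_covers : ∀ a b : Fin 10, adjB a b = true →
    ∃ i : Fin 26, ((tab.getD i.val (0, 0, [])).1 = a.val ∧ (tab.getD i.val (0, 0, [])).2.1 = b.val) ∨
      ((tab.getD i.val (0, 0, [])).1 = b.val ∧ (tab.getD i.val (0, 0, [])).2.1 = a.val) := by
  decide +kernel

theorem F_crit : Crit F 4 := by
  refine ⟨?_, F_not, ?_, ?_⟩
  · refine colorable_of_fun
      (fun i => ([0, 1, 2, 2, 0, 1, 3, 1, 4, 4] : List (Fin 5)).getD i.val 0) ?_
    have : ∀ x y : Fin 10, adjB x y = true →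
        ([0, 1, 2, 2, 0, 1, 3, 1, 4, 4] : List (Fin 5)).getD x.val 0 ≠
        ([0, 1, 2, 2, 0, 1, 3, 1, 4, 4] : List (Fin 5)).getD y.val 0 := by decide +kernel
    exact this
  · intro a b hab
    obtain ⟨i, hi⟩ := tab_covers a b hab
    set t := tab.getD i.val (0, 0, []) with ht
    have htm : t ∈ tab := by
      rw [ht, List.getD_eq_getElem _ _ (show i.val < tab.length from i.isLt)]
      exact List.getElem_mem _
    have hok := (List.all_eq_true.1 tab_all) t htm
    unfold tabOk at hok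
    rw [List.all_eq_true] at hok
    refine ⟨fun z => ⟨(t.2.2.getD z.val 0) % 4, Nat.mod_lt _ (by norm_num)⟩, ?_⟩
    intro x y hxy hs
    have h1 := hok x.val (List.mem_range.2 x.isLt)
    rw [List.all_eq_true] at h1
    have h2 := h1 y.val (List.mem_range.2 y.isLt)
    have hxy' : adjB x.val y.val = true := hxy
    rw [hxy'] at h2
    intro he
    have he' : (t.2.2.getD x.val 0) % 4 = (t.2.2.getD y.val 0) % 4 := congrArg Fin.val he
    rw [he'] at h2
    simp only [Bool.not_true, Bool.false_or, BEq.rfl, Bool.or_false, Bool.or_eq_true,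
      Bool.and_eq_true, beq_iff_eq] at h2
    apply hs
    rw [Sym2.eq_iff]
    simp only [Fin.ext_iff]
    omega
  · have : ∀ x : Fin 10, ∃ y : Fin 10, adjB x y = true := by decide +kernel
    exact this

theorem cfg_base : Cfg 4 3 1 0 := by
  refine ⟨Fin 10, inferInstance, F, {0, 1, 2}, 0, 0, 1, 2, 3, 4, 6, F_crit, ?_, ?_, by simp,
    by simp, by simp, by simp, by decide, ?_, ?_, ?_, by simp, by simp, by decide, by decide,
    ?_, Nat.zero_le _, F_forced⟩
  · intro a ha b hb hab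
    have key : ∀ a b : Fin 10, (a = 0 ∨ a = 1 ∨ a = 2) → (b = 0 ∨ b = 1 ∨ b = 2) → a ≠ b →
        adjB a b = true := by decide +kernel
    exact key a b (by simpa using ha) (by simpa using hb) hab
  · rw [Set.ncard_eq_toFinset_card']
    decide +kernel
  · intro h
    simp at h
  · show adjB 0 3 = true
    decide +kernel
  · show adjB 4 6 = true
    decide +kernel
  · have h1 : {v | v ∈ ({0, 1, 2} : Set (Fin 10)) ∧ v ≠ 0 ∧ ¬ F.Adj 3 v} = {2} := by
      ext v
      have key : ∀ v : Fin 10, ((v = 0 ∨ v = 1 ∨ v = 2) ∧ v ≠ 0 ∧ ¬ adjB 3 v.val = true) ↔ v = 2 := by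
        decide +kernel
      exact key v
    rw [h1, Set.ncard_singleton]

theorem cfg_all (K h j N : ℕ) (hh : 3 ≤ h) (hK : h < K) (hj : 1 ≤ j) (hjh : j < h) :
    Cfg K h j N := by
  have h1 : ∀ i, Cfg (4 + i) (3 + i) 1 0 := by
    intro i
    induction i with
    | zero => exact cfg_base
    | succ i ih => exact ih.cone_succ
  have h2 : ∀ i m, Cfg (4 + i + m) (3 + i) 1 0 := by
    intro i m
    induction m with
    | zero => exact h1 i
    | succ m ih => exact ih.cone_same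
  have h3 : Cfg K h 1 0 := by
    have := h2 (h - 3) (K - h - 1)
    rwa [show 4 + (h - 3) + (K - h - 1) = K by omega, show 3 + (h - 3) = h by omega] at this
  have h4 : ∀ i, 1 + i < h → Cfg K h (1 + i) 0 := by
    intro i
    induction i with
    | zero => intro _; exact h3
    | succ i ih => intro hi; exact (ih (by omega)).more (by omega) (by omega)
  have h5 : Cfg K h j 0 := by
    have := h4 (j - 1) (by omega)
    rwa [show 1 + (j - 1) = j by omega] at this
  induction N with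
  | zero => exact h5
  | succ N ih => exact ih.larger (by omega)

/-! ### The glued graph -/

/-- The glued graph stays not `K`-colourable after deleting an edge of `H`. -/
theorem glue_not {K h j N : ℕ} (hb : Cfg K h j N) :
    ∃ (V : Type) (_ : Finite V) (G : SimpleGraph V) (H : Set V) (x : H) (y : V),
      N ≤ Nat.card V ∧
      IsCritical G (K + 1) ∧ G.IsClique H ∧ H.ncard = h ∧ y ∉ H ∧ G.Adj x y ∧
        {v : H | v ≠ x ∧
          ¬ (diracGraph G G H H (Equiv.refl H) x y y).Adj (inj₁ H H (Equiv.refl H) v)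
            (inj₁ H H (Equiv.refl H) y) ∧
          ¬ (diracGraph G G H H (Equiv.refl H) x y y).Adj (inj₁ H H (Equiv.refl H) v)
            (inj₂ H H (Equiv.refl H) y)}.ncard = j ∧
        ∃ a b : H, a ≠ b ∧ ¬ ((diracGraph G G H H (Equiv.refl H) x y y).deleteEdges
          {s(inj₁ H H (Equiv.refl H) a, inj₁ H H (Equiv.refl H) b)}).Colorable K := by
  obtain ⟨V, hV, G, H, x, p, q, r, y, u, w, hcrit, hcl, hcard, hx, hp, hq, hr, hpq, hy, hxy, -,
    -, -, -, -, hj, hN, hc⟩ := hb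
  set D := diracGraph G G H H (Equiv.refl H) ⟨x, hx⟩ y y with hDdef
  set i₁ := inj₁ H H (Equiv.refl H) with hi₁
  set i₂ := inj₂ H H (Equiv.refl H) with hi₂
  have hi₁inj : Function.Injective i₁ := inj₁_injective H
  have hi₂inj : Function.Injective i₂ := inj₂_injective H
  have hHH : ∀ v ∈ H, i₁ v = i₂ v := fun v hv => inj_eq H v hv
  have hadj : ∀ z w, D.Adj z w ↔ ((G.map i₁ ⊔ G.map i₂).deleteEdges
      {s(i₁ x, i₁ y), s(i₁ x, i₂ y)} ⊔ SimpleGraph.edge (i₁ y) (i₂ y)).Adj z w :=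
    fun z w => Iff.rfl
  have hyy : D.Adj (i₁ y) (i₂ y) := by
    rw [hadj, SimpleGraph.sup_adj]
    right
    rw [SimpleGraph.edge_adj]
    exact ⟨Or.inl ⟨rfl, rfl⟩, inj₁_ne_inj₂ H y y hy⟩
  have hD1 : ∀ a b, G.Adj a b → s(a, b) ≠ s(x, y) → D.Adj (i₁ a) (i₁ b) := by
    intro a b hab hne
    rw [hadj, SimpleGraph.sup_adj]
    left
    rw [SimpleGraph.deleteEdges_adj]
    refine ⟨?_, ?_⟩
    · rw [SimpleGraph.sup_adj]
      left
      rw [SimpleGraph.map_adj']
      exact ⟨fun h => hab.ne (hi₁inj h), a, b, hab, rfl, rfl⟩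
    · rintro (h | h)
      · rw [Sym2.eq_iff] at h
        apply hne
        rw [Sym2.eq_iff]
        rcases h with h | h
        · exact Or.inl ⟨hi₁inj h.1, hi₁inj h.2⟩
        · exact Or.inr ⟨hi₁inj h.1, hi₁inj h.2⟩
      · rw [Set.mem_singleton_iff, Sym2.eq_iff] at h
        rcases h with h | h
        · exact inj₁_ne_inj₂ H b y hy h.2
        · exact inj₁_ne_inj₂ H a y hy h.1
  have hD2 : ∀ a b, G.Adj a b → s(a, b) ≠ s(x, y) → D.Adj (i₂ a) (i₂ b) := by
    intro a b hab hne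
    rw [hadj, SimpleGraph.sup_adj]
    left
    rw [SimpleGraph.deleteEdges_adj]
    refine ⟨?_, ?_⟩
    · rw [SimpleGraph.sup_adj]
      right
      rw [SimpleGraph.map_adj']
      exact ⟨fun h => hab.ne (hi₂inj h), a, b, hab, rfl, rfl⟩
    · rintro (h | h)
      · rw [Sym2.eq_iff] at h
        rcases h with h | h
        · exact inj₂_ne_inj₁ H b y hy h.2
        · exact inj₂_ne_inj₁ H a y hy h.1
      · rw [Set.mem_singleton_iff, Sym2.eq_iff, hHH x hx] at h
        apply hne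
        rw [Sym2.eq_iff]
        rcases h with h | h
        · exact Or.inl ⟨hi₂inj h.1, hi₂inj h.2⟩
        · exact Or.inr ⟨hi₂inj h.1, hi₂inj h.2⟩
  have hDy : ∀ v ∈ H, v ≠ x → (D.Adj (i₁ v) (i₁ y) ↔ G.Adj y v) := by
    intro v hv hvx
    constructor
    · intro h
      rw [hadj, SimpleGraph.sup_adj] at h
      rcases h with h | h
      · rw [SimpleGraph.deleteEdges_adj, SimpleGraph.sup_adj] at h
        rcases h.1 with h1 | h1
        · rw [SimpleGraph.map_adj'] at h1
          obtain ⟨-, a, b, hab, ea, eb⟩ := h1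
          rw [← hi₁inj ea, ← hi₁inj eb]; exact hab.symm
        · rw [SimpleGraph.map_adj'] at h1
          obtain ⟨-, a, b, hab, ea, eb⟩ := h1
          exact absurd eb (inj₂_ne_inj₁ H b y hy)
      · rw [SimpleGraph.edge_adj] at h
        rcases h.1 with h1 | h1
        · exact absurd h1.2 (inj₁_ne_inj₂ H y y hy)
        · exact absurd h1.1 (inj₁_ne_inj₂ H v y hy)
    · intro h
      refine hD1 v y h.symm ?_
      intro h2
      rw [Sym2.eq_iff] at h2
      rcases h2 with h2 | h2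
      · exact hvx h2.1
      · exact h.ne h2.1.symm
  have hDy2 : ∀ v ∈ H, v ≠ x → (D.Adj (i₁ v) (i₂ y) ↔ G.Adj y v) := by
    intro v hv hvx
    constructor
    · intro h
      rw [hadj, SimpleGraph.sup_adj] at h
      rcases h with h | h
      · rw [SimpleGraph.deleteEdges_adj, SimpleGraph.sup_adj] at h
        rcases h.1 with h1 | h1
        · rw [SimpleGraph.map_adj'] at h1
          obtain ⟨-, a, b, hab, ea, eb⟩ := h1
          exact absurd eb (inj₁_ne_inj₂ H b y hy)
        · rw [SimpleGraph.map_adj'] at h1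
          obtain ⟨-, a, b, hab, ea, eb⟩ := h1
          rw [hHH v hv] at ea
          rw [← hi₂inj ea, ← hi₂inj eb]; exact hab.symm
      · rw [SimpleGraph.edge_adj] at h
        rcases h.1 with h1 | h1
        · exact absurd (hi₁inj h1.1) (fun e => hy (e ▸ hv))
        · exact absurd h1.1 (inj₁_ne_inj₂ H v y hy)
    · intro h
      rw [hHH v hv]
      refine hD2 v y h.symm ?_
      intro h2
      rw [Sym2.eq_iff] at h2
      rcases h2 with h2 | h2
      · exact hvx h2.1
      · exact h.ne h2.1.symm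
  refine ⟨V, hV, G, H, ⟨x, hx⟩, y, hN, hcrit.isCritical, hcl, hcard, hy, hxy, ?_, ⟨p, hp⟩,
    ⟨q, hq⟩, fun h => hpq (congrArg Subtype.val h), ?_⟩
  · rw [← hj, ← Set.ncard_image_of_injective _ (Subtype.val_injective (p := fun v => v ∈ H))]
    congr 1
    ext z
    constructor
    · rintro ⟨⟨v, hv⟩, ⟨hvx, h1, h2⟩, rfl⟩
      have hvx' : v ≠ x := fun h => hvx (Subtype.ext h)
      exact ⟨hv, hvx', fun h => h1 ((hDy v hv hvx').2 h)⟩
    · rintro ⟨hv, hvx, hvy⟩
      exact ⟨⟨z, hv⟩, ⟨fun h => hvx (congrArg Subtype.val h), fun h => hvy ((hDy z hv hvx).1 h),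
        fun h => hvy ((hDy2 z hv hvx).1 h)⟩, rfl⟩
  rintro ⟨C⟩
  have hC : ∀ z w, D.Adj z w → s(z, w) ≠ s(i₁ p, i₁ q) → C z ≠ C w := by
    intro z w hzw hne
    refine C.valid ?_
    rw [SimpleGraph.deleteEdges_adj]
    exact ⟨hzw, hne⟩
  have hpq_adj : G.Adj p q := hcl hp hq hpq
  have hy12 : C (i₁ y) ≠ C (i₂ y) := by
    refine hC _ _ hyy ?_
    intro h
    rw [Sym2.eq_iff, hHH p hp] at h
    rcases h with h | h
    · exact inj₂_ne_inj₁ H p y hy h.1.symm
    · have h2 : i₂ y = i₂ p := h.2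
      exact hy (hi₂inj h2 ▸ hp)
  -- restrictions
  have hc1 : ∀ a b, G.Adj a b → s(a, b) ≠ s(x, y) → s(a, b) ≠ s(p, q) → C (i₁ a) ≠ C (i₁ b) := by
    intro a b hab h1 h2
    refine hC _ _ (hD1 a b hab h1) ?_
    intro h
    apply h2
    rw [Sym2.eq_iff] at h ⊢
    rcases h with h | h
    · exact Or.inl ⟨hi₁inj h.1, hi₁inj h.2⟩
    · exact Or.inr ⟨hi₁inj h.1, hi₁inj h.2⟩
  have hc2 : ∀ a b, G.Adj a b → s(a, b) ≠ s(x, y) → s(a, b) ≠ s(p, q) → C (i₂ a) ≠ C (i₂ b) := by
    intro a b hab h1 h2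
    refine hC _ _ (hD2 a b hab h1) ?_
    intro h
    apply h2
    rw [hHH p hp, hHH q hq, Sym2.eq_iff] at h
    rw [Sym2.eq_iff]
    rcases h with h | h
    · exact Or.inl ⟨hi₂inj h.1, hi₂inj h.2⟩
    · exact Or.inr ⟨hi₂inj h.1, hi₂inj h.2⟩
  have hncol := hcrit.2.1
  have hforce : ∀ c : V → Fin K, (∀ a b, G.Adj a b → s(a, b) ≠ s(x, y) → s(a, b) ≠ s(p, q) →
      c a ≠ c b) → c p ≠ c q → c y = c x := by
    intro c hcc hne
    by_contra hyx
    apply hncol
    refine colorable_of_fun c ?_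
    intro a b hab
    by_cases h1 : s(a, b) = s(x, y)
    · rw [Sym2.eq_iff] at h1
      rcases h1 with h1 | h1
      · rw [h1.1, h1.2]; exact fun h => hyx h.symm
      · rw [h1.1, h1.2]; exact hyx
    · by_cases h2 : s(a, b) = s(p, q)
      · rw [Sym2.eq_iff] at h2
        rcases h2 with h2 | h2
        · rw [h2.1, h2.2]; exact hne
        · rw [h2.1, h2.2]; exact hne.symm
      · exact hcc a b hab h1 h2
  by_cases hCpq : C (i₁ p) = C (i₁ q)
  · have e1 := hc (fun v => C (i₁ v)) hc1 hCpq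
    have e2 := hc (fun v => C (i₂ v)) hc2 (by
      show C (i₂ p) = C (i₂ q)
      rw [← hHH p hp, ← hHH q hq]; exact hCpq)
    apply hy12
    have e1' : C (i₁ y) = C (i₁ r) := e1
    have e2' : C (i₂ y) = C (i₂ r) := e2
    rw [e1', e2', hHH r hr]
  · have e1 := hforce (fun v => C (i₁ v)) hc1 hCpq
    have e2 := hforce (fun v => C (i₂ v)) hc2 (by
      show C (i₂ p) ≠ C (i₂ q)
      rw [← hHH p hp, ← hHH q hq]; exact hCpq)
    apply hy12
    have e1' : C (i₁ y) = C (i₁ x) := e1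
    have e2' : C (i₂ y) = C (i₂ x) := e2
    rw [e1', e2', hHH x hx]

end Pool.Agent.Y54.DH
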