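import Pool.Agent.Results.MP_93b7f4_co.DiracFails

/-!
# Configurations for Dirac's construction with a prescribed number of non-neighbours
-/

set_option autoImplicit false

namespace Pool.Agent.Y54.DH

open Pool.Agent.Results.MP_93b7f4_co.DiracFails

/-! ### Replacing an edge by a complete graph -/

section Gad

variable {V : Type} (G : SimpleGraph V) (s t : V) (K : ℕ)

/-- Adjacency after replacing the edge `s t` by a complete graph on `K` new vertices, all of them
except the first adjacent to `s`, the first one adjacent to `t`. -/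
def gadAdj : V ⊕ Fin K → V ⊕ Fin K → Prop
  | Sum.inl u, Sum.inl v => G.Adj u v ∧ s(u, v) ≠ s(s, t)
  | Sum.inl u, Sum.inr i => (u = s ∧ i.val ≠ 0) ∨ (u = t ∧ i.val = 0)
  | Sum.inr i, Sum.inl u => (u = s ∧ i.val ≠ 0) ∨ (u = t ∧ i.val = 0)
  | Sum.inr i, Sum.inr j => i ≠ j

/-- The graph in which the edge `s t` is replaced by a complete graph (Hajós join with a complete
graph on `K + 1` vertices). -/
def gad : SimpleGraph (V ⊕ Fin K) where
  Adj := gadAdj G s t K
  symm := ⟨by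
    rintro (u | i) (v | j) h
    · exact ⟨h.1.symm, by rw [Sym2.eq_swap]; exact h.2⟩
    · exact h
    · exact h
    · exact Ne.symm h⟩
  loopless := ⟨by
    rintro (u | i) h
    · exact h.1.ne rfl
    · exact h rfl⟩

variable {G s t K}

theorem gad_ll (u v : V) : (gad G s t K).Adj (Sum.inl u) (Sum.inl v) ↔
    G.Adj u v ∧ s(u, v) ≠ s(s, t) := Iff.rfl

theorem gad_lr (u : V) (i : Fin K) : (gad G s t K).Adj (Sum.inl u) (Sum.inr i) ↔
    (u = s ∧ i.val ≠ 0) ∨ (u = t ∧ i.val = 0) := Iff.rfl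

theorem gad_rl (u : V) (i : Fin K) : (gad G s t K).Adj (Sum.inr i) (Sum.inl u) ↔
    (u = s ∧ i.val ≠ 0) ∨ (u = t ∧ i.val = 0) := Iff.rfl

theorem gad_rr (i j : Fin K) : (gad G s t K).Adj (Sum.inr i : V ⊕ Fin K) (Sum.inr j) ↔ i ≠ j :=
  Iff.rfl

/-- A colouring respecting the new edges gives different colours to `s` and `t`. -/
theorem gad_forces (c : V ⊕ Fin K → Fin K)
    (h1 : ∀ i j : Fin K, i ≠ j → c (Sum.inr i) ≠ c (Sum.inr j))
    (h2 : ∀ i : Fin K, i.val ≠ 0 → c (Sum.inl s) ≠ c (Sum.inr i))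
    (h3 : ∀ i : Fin K, i.val = 0 → c (Sum.inl t) ≠ c (Sum.inr i)) :
    c (Sum.inl s) ≠ c (Sum.inl t) := by
  have hinj : Function.Injective (fun i : Fin K => c (Sum.inr i)) := by
    intro i j hij
    by_contra hne
    exact h1 i j hne hij
  obtain ⟨i, hi⟩ := (Finite.injective_iff_surjective.1 hinj) (c (Sum.inl s))
  have hi' : c (Sum.inr i) = c (Sum.inl s) := hi
  have hi0 : i.val = 0 := by
    by_contra h
    exact h2 i h hi'.symm
  intro h
  exact h3 i hi0 (h ▸ hi'.symm)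

/-- Extending a colouring. -/
theorem ext_ne {M : ℕ} (c : V → Fin M) (g : Fin K → Fin M) (P : V ⊕ Fin K → V ⊕ Fin K → Prop)
    (hP : ∀ z w, P z w → P w z)
    (h1 : ∀ u v, G.Adj u v → s(u, v) ≠ s(s, t) → P (Sum.inl u) (Sum.inl v) → c u ≠ c v)
    (h2 : ∀ i : Fin K, i.val ≠ 0 → P (Sum.inl s) (Sum.inr i) → c s ≠ g i)
    (h3 : ∀ i : Fin K, i.val = 0 → P (Sum.inl t) (Sum.inr i) → c t ≠ g i)
    (h4 : ∀ i j : Fin K, i ≠ j → P (Sum.inr i) (Sum.inr j) → g i ≠ g j) :
    ∀ z w, (gad G s t K).Adj z w → P z w → (Sum.elim c g) z ≠ (Sum.elim c g) w := by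
  rintro (u | i) (v | j) h hp
  · exact h1 u v h.1 h.2 hp
  · rcases h with ⟨rfl, hj⟩ | ⟨rfl, hj⟩
    · exact h2 j hj hp
    · exact h3 j hj hp
  · rcases h with ⟨rfl, hj⟩ | ⟨rfl, hj⟩
    · exact (h2 i hj (hP _ _ hp)).symm
    · exact (h3 i hj (hP _ _ hp)).symm
  · exact h4 i j h hp

theorem gad_crit (hK : 2 ≤ K) (hG : Crit G K) (hst : G.Adj s t) : Crit (gad G s t K) K := by
  classical
  obtain ⟨⟨C⟩, h2, h3, h4⟩ := hG
  have z0 : Fin K := ⟨0, by omega⟩
  -- in a colouring of `G` without the edge `s t` the two ends agree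
  have hag : ∀ c : V → Fin K, (∀ x y, G.Adj x y → s(x, y) ≠ s(s, t) → c x ≠ c y) → c s = c t := by
    intro c hc
    by_contra hne
    apply h2
    refine colorable_of_fun c ?_
    intro x y hxy
    by_cases h : s(x, y) = s(s, t)
    · rw [Sym2.eq_iff] at h
      rcases h with ⟨rfl, rfl⟩ | ⟨rfl, rfl⟩
      · exact hne
      · exact fun h => hne h.symm
    · exact hc x y hxy h
  refine ⟨?_, ?_, ?_, ?_⟩
  · refine colorable_of_fun (Sum.elim (fun v => C v)
      (fun i : Fin K => Equiv.swap (0 : Fin (K + 1)) (C s) i.castSucc)) ?_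
    intro z w hzw
    refine ext_ne (G := G) (s := s) (t := t) _ _ (fun _ _ => True) (fun _ _ _ => trivial)
      ?_ ?_ ?_ ?_ z w hzw trivial
    · intro u v huv _ _
      exact C.valid huv
    · intro i hi _ h
      have h' : Equiv.swap (0 : Fin (K + 1)) (C s) 0 =
          Equiv.swap (0 : Fin (K + 1)) (C s) i.castSucc := by
        rw [Equiv.swap_apply_left]; exact h
      have := (Equiv.swap (0 : Fin (K + 1)) (C s)).injective h'
      apply hi
      have h5 := congrArg Fin.val this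
      simpa using h5.symm
    · intro i hi _ h
      have hi' : i.castSucc = (0 : Fin (K + 1)) := by
        ext; simpa using hi
      rw [hi', Equiv.swap_apply_left] at h
      exact C.valid hst h.symm
    · intro i j hij _ h
      exact hij (Fin.castSucc_injective _ ((Equiv.swap (0 : Fin (K + 1)) (C s)).injective h))
  · rintro ⟨D⟩
    apply h2
    have hf : D (Sum.inl s) ≠ D (Sum.inl t) := by
      refine gad_forces (fun z => D z) ?_ ?_ ?_
      · intro i j hij; exact D.valid ((gad_rr i j).2 hij)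
      · intro i hi; exact D.valid ((gad_lr s i).2 (Or.inl ⟨rfl, hi⟩))
      · intro i hi; exact D.valid ((gad_lr t i).2 (Or.inr ⟨rfl, hi⟩))
    refine colorable_of_fun (fun v => D (Sum.inl v)) ?_
    intro x y hxy
    by_cases h : s(x, y) = s(s, t)
    · rw [Sym2.eq_iff] at h
      rcases h with ⟨rfl, rfl⟩ | ⟨rfl, rfl⟩
      · exact hf
      · exact hf.symm
    · exact D.valid ((gad_ll x y).2 ⟨hxy, h⟩)
  · -- colourings after deleting one edge
    obtain ⟨c₀, hc₀⟩ := h3 s t hst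
    have hc₀e := hag c₀ hc₀
    have kll : ∀ a b, G.Adj a b → s(a, b) ≠ s(s, t) → ∃ c : V ⊕ Fin K → Fin K,
        ∀ x y, (gad G s t K).Adj x y → s(x, y) ≠ s(Sum.inl a, Sum.inl b) → c x ≠ c y := by
      intro a b hab hne
      obtain ⟨c, hc⟩ := h3 a b hab
      have hcst : c s ≠ c t := hc s t hst hne.symm
      refine ⟨Sum.elim c (fun i : Fin K => Equiv.swap (⟨0, by omega⟩ : Fin K) (c s) i),
        ext_ne (G := G) (s := s) (t := t) _ _ (fun z w => s(z, w) ≠ s(Sum.inl a, Sum.inl b))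
          (fun z w h => by rw [Sym2.eq_swap]; exact h) ?_ ?_ ?_ ?_⟩
      · intro u v huv _ hp
        refine hc u v huv ?_
        intro h
        apply hp
        rw [Sym2.eq_iff] at h ⊢
        rcases h with ⟨rfl, rfl⟩ | ⟨rfl, rfl⟩
        · exact Or.inl ⟨rfl, rfl⟩
        · exact Or.inr ⟨rfl, rfl⟩
      · intro i hi _ h
        have h' : Equiv.swap (⟨0, by omega⟩ : Fin K) (c s) ⟨0, by omega⟩ =
            Equiv.swap (⟨0, by omega⟩ : Fin K) (c s) i := by
          rw [Equiv.swap_apply_left]; exact h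
        have := (Equiv.swap (⟨0, by omega⟩ : Fin K) (c s)).injective h'
        exact hi (congrArg Fin.val this).symm
      · intro i hi _ h
        have hi' : i = (⟨0, by omega⟩ : Fin K) := Fin.ext hi
        rw [hi', Equiv.swap_apply_left] at h
        exact hcst h.symm
      · intro i j hij _ h
        exact hij ((Equiv.swap (⟨0, by omega⟩ : Fin K) (c s)).injective h)
    have kin : ∀ i : Fin K, ∃ c : V ⊕ Fin K → Fin K, (∀ x y, (gad G s t K).Adj x y →
        s(x, y) ≠ s(Sum.inl (if i.val = 0 then t else s), Sum.inr i) → c x ≠ c y) := by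
      intro i
      refine ⟨Sum.elim c₀ (fun l : Fin K => Equiv.swap i (c₀ s) l),
        ext_ne (G := G) (s := s) (t := t) _ _
          (fun z w => s(z, w) ≠ s(Sum.inl (if i.val = 0 then t else s), Sum.inr i))
          (fun z w h => by rw [Sym2.eq_swap]; exact h) ?_ ?_ ?_ ?_⟩
      · intro u v huv h _
        exact hc₀ u v huv h
      · intro l hl hp h
        have h' : Equiv.swap i (c₀ s) i = Equiv.swap i (c₀ s) l := by
          rw [Equiv.swap_apply_left]; exact h
        have hil := (Equiv.swap i (c₀ s)).injective h'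
        apply hp
        rw [← hil, if_neg (by rw [hil]; exact hl)]
      · intro l hl hp h
        have h' : Equiv.swap i (c₀ s) i = Equiv.swap i (c₀ s) l := by
          rw [Equiv.swap_apply_left, hc₀e]; rw [hc₀e] at h; exact h
        have hil := (Equiv.swap i (c₀ s)).injective h'
        apply hp
        rw [← hil, if_pos (by rw [hil]; exact hl)]
      · intro l m hlm _ h
        exact hlm ((Equiv.swap i (c₀ s)).injective h)
    have krr : ∀ i j : Fin K, i ≠ j → ∃ c : V ⊕ Fin K → Fin K, (∀ x y, (gad G s t K).Adj x y →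
        s(x, y) ≠ s(Sum.inr i, Sum.inr j) → c x ≠ c y) := by
      intro i j hij
      have hg : ∀ l : Fin K, l ≠ j → Equiv.swap j (c₀ s) l ≠ c₀ s := by
        intro l hl h
        have h' : Equiv.swap j (c₀ s) l = Equiv.swap j (c₀ s) j := by
          rw [Equiv.swap_apply_left]; exact h
        exact hl ((Equiv.swap j (c₀ s)).injective h')
      have hf : ∀ l : Fin K, (if l = j then Equiv.swap j (c₀ s) i else Equiv.swap j (c₀ s) l) ≠
          c₀ s := by
        intro l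
        split_ifs with h
        · exact hg i hij
        · exact hg l h
      refine ⟨Sum.elim c₀ (fun l : Fin K =>
          if l = j then Equiv.swap j (c₀ s) i else Equiv.swap j (c₀ s) l),
        ext_ne (G := G) (s := s) (t := t) _ _ (fun z w => s(z, w) ≠ s(Sum.inr i, Sum.inr j))
          (fun z w h => by rw [Sym2.eq_swap]; exact h) ?_ ?_ ?_ ?_⟩
      · intro u v huv h _
        exact hc₀ u v huv h
      · intro l _ _ h
        exact hf l h.symm
      · intro l _ _ h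
        exact hf l (h.symm.trans hc₀e.symm)
      · intro l m hlm hp h
        by_cases hl : l = j
        · by_cases hm : m = j
          · exact hlm (hl.trans hm.symm)
          · simp only [hl, hm, if_true, if_false] at h
            have him := (Equiv.swap j (c₀ s)).injective h
            apply hp
            rw [hl, ← him, Sym2.eq_swap]
        · by_cases hm : m = j
          · simp only [hl, hm, if_true, if_false] at h
            have him := (Equiv.swap j (c₀ s)).injective h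
            apply hp
            rw [hm, him]
          · simp only [hl, hm, if_false] at h
            exact hlm ((Equiv.swap j (c₀ s)).injective h)
    rintro (a | i) (b | j) hab
    · exact kll a b hab.1 hab.2
    · obtain ⟨c, hc⟩ := kin j
      rcases hab with ⟨rfl, hj⟩ | ⟨rfl, hj⟩
      · rw [if_neg hj] at hc; exact ⟨c, hc⟩
      · rw [if_pos hj] at hc; exact ⟨c, hc⟩
    · obtain ⟨c, hc⟩ := kin i
      rw [Sym2.eq_swap (a := Sum.inl _)] at hc
      rcases hab with ⟨rfl, hj⟩ | ⟨rfl, hj⟩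
      · rw [if_neg hj] at hc; exact ⟨c, hc⟩
      · rw [if_pos hj] at hc; exact ⟨c, hc⟩
    · exact krr i j hab
  · rintro (u | i)
    · by_cases hs : u = s
      · exact ⟨Sum.inr ⟨1, by omega⟩, Or.inl ⟨hs, by simp⟩⟩
      · by_cases ht : u = t
        · exact ⟨Sum.inr ⟨0, by omega⟩, Or.inr ⟨ht, rfl⟩⟩
        · obtain ⟨w, hw⟩ := h4 u
          refine ⟨Sum.inl w, hw, ?_⟩
          intro h
          rw [Sym2.eq_iff] at h
          rcases h with h | h
          · exact hs h.1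
          · exact ht h.1
    · by_cases hi : i.val = 0
      · refine ⟨Sum.inr ⟨1, by omega⟩, ?_⟩
        intro h
        rw [h] at hi
        simp at hi
      · refine ⟨Sum.inr ⟨0, by omega⟩, ?_⟩
        intro h
        rw [h] at hi
        exact hi rfl

end Gad

/-! ### Configurations -/

/-- A `(K+1)`-critical graph with at least `N` vertices containing a clique `H` of size `h`, a vertex
`x` of `H`, a neighbour `y` of `x` outside `H` such that exactly `j` vertices of `H` other than `x` are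
not adjacent to `y`, distinct vertices `a`, `b` of `H` and a vertex `r` of `H` such that in every
`K`-colouring of the graph without the edges `x y` and `a b` in which `a` and `b` get the same
colour, `y` and `r` get the same colour. -/
def Cfg (K h j N : ℕ) : Prop :=
  ∃ (V : Type) (_ : Finite V) (G : SimpleGraph V) (H : Set V) (x a b r y u w : V),
    Crit G K ∧ G.IsClique H ∧ H.ncard = h ∧ x ∈ H ∧ a ∈ H ∧ b ∈ H ∧ r ∈ H ∧ a ≠ b ∧
      y ∉ H ∧ G.Adj x y ∧ G.Adj u w ∧ u ∉ H ∧ w ∉ H ∧ u ≠ y ∧ w ≠ y ∧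
      {v | v ∈ H ∧ v ≠ x ∧ ¬ G.Adj y v}.ncard = j ∧ N ≤ Nat.card V ∧
      ∀ c : V → Fin K, (∀ p q, G.Adj p q → s(p, q) ≠ s(x, y) → s(p, q) ≠ s(a, b) → c p ≠ c q) →
        c a = c b → c y = c r

theorem cone_prop2 {V : Type} {G : SimpleGraph V} {K : ℕ} {x a b r y : V}
    (h : ∀ c : V → Fin K, (∀ p q, G.Adj p q → s(p, q) ≠ s(x, y) → s(p, q) ≠ s(a, b) → c p ≠ c q) →
        c a = c b → c y = c r) :
    ∀ c : Option V → Fin (K + 1), (∀ p q, (coneG G).Adj p q → s(p, q) ≠ s(some x, some y) →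
      s(p, q) ≠ s(some a, some b) → c p ≠ c q) → c (some a) = c (some b) →
        c (some y) = c (some r) := by
  intro c hc hpq
  have hC : ∀ v : V, c (some v) ≠ c none := by
    intro v
    refine hc (some v) none (by simp) ?_ ?_
    · intro hs; rw [Sym2.eq_iff] at hs; simp at hs
    · intro hs; rw [Sym2.eq_iff] at hs; simp at hs
  obtain ⟨d, hd⟩ := drop_colour (fun v => c (some v)) (c none) hC
  have := h d ?_ ((hd a b).2 hpq)
  · exact (hd y r).1 this
  · intro p q hab h1 h2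
    rw [Ne, hd]
    refine hc (some p) (some q) hab ?_ ?_
    · intro hs
      apply h1
      rw [Sym2.eq_iff] at hs ⊢
      simpa using hs
    · intro hs
      apply h2
      rw [Sym2.eq_iff] at hs ⊢
      simpa using hs

theorem Cfg.cone_same {K h j N : ℕ} (hb : Cfg K h j N) : Cfg (K + 1) h j N := by
  obtain ⟨V, hV, G, H, x, a, b, r, y, u, w, hcrit, hcl, hcard, hx, ha, hb, hr, hab, hy, hxy, huw,
    hu, hw, huy, hwy, hj, hN, hc⟩ := hb
  have hsi := Option.some_injective V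
  refine ⟨Option V, inferInstance, coneG G, some '' H, some x, some a, some b, some r, some y,
    some u, some w, hcrit.toCone ⟨x⟩, ?_, ?_, ⟨x, hx, rfl⟩, ⟨a, ha, rfl⟩, ⟨b, hb, rfl⟩,
    ⟨r, hr, rfl⟩, fun h => hab (hsi h), ?_, hxy, huw, ?_, ?_, fun h => huy (hsi h),
    fun h => hwy (hsi h), ?_, ?_, cone_prop2 hc⟩
  · rintro _ ⟨a, ha, rfl⟩ _ ⟨b, hb, rfl⟩ hab
    exact hcl ha hb (fun h => hab (congrArg some h))
  · rw [Set.ncard_image_of_injective _ hsi, hcard]
  · rintro ⟨v, hv, e⟩; exact hy (hsi e ▸ hv)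
  · rintro ⟨v, hv, e⟩; exact hu (hsi e ▸ hv)
  · rintro ⟨v, hv, e⟩; exact hw (hsi e ▸ hv)
  · rw [← hj, ← Set.ncard_image_of_injective _ hsi]
    congr 1
    ext z
    constructor
    · rintro ⟨⟨v, hv, rfl⟩, hvx, hvy⟩
      exact ⟨v, ⟨hv, fun h => hvx (congrArg some h), hvy⟩, rfl⟩
    · rintro ⟨v, ⟨hv, hvx, hvy⟩, rfl⟩
      exact ⟨⟨v, hv, rfl⟩, fun h => hvx (hsi h), hvy⟩
  · rw [Finite.card_option]; omega

theorem Cfg.cone_succ {K h j N : ℕ} (hb : Cfg K h j N) : Cfg (K + 1) (h + 1) j N := by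
  obtain ⟨V, hV, G, H, x, a, b, r, y, u, w, hcrit, hcl, hcard, hx, ha, hb, hr, hab, hy, hxy, huw,
    hu, hw, huy, hwy, hj, hN, hc⟩ := hb
  have hsi := Option.some_injective V
  refine ⟨Option V, inferInstance, coneG G, insert none (some '' H), some x, some a, some b,
    some r, some y, some u, some w, hcrit.toCone ⟨x⟩, ?_, ?_, Or.inr ⟨x, hx, rfl⟩,
    Or.inr ⟨a, ha, rfl⟩, Or.inr ⟨b, hb, rfl⟩, Or.inr ⟨r, hr, rfl⟩, fun h => hab (hsi h), ?_, hxy,
    huw, ?_, ?_, fun h => huy (hsi h), fun h => hwy (hsi h), ?_, ?_, cone_prop2 hc⟩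
  · rintro a (rfl | ⟨a, ha, rfl⟩) b (rfl | ⟨b, hb, rfl⟩) hab
    · exact absurd rfl hab
    · simp
    · simp
    · exact hcl ha hb (fun h => hab (congrArg some h))
  · rw [Set.ncard_insert_of_notMem (by simp) (Set.toFinite _),
      Set.ncard_image_of_injective _ hsi, hcard]
  · rintro (h | ⟨v, hv, e⟩)
    · simp at h
    · exact hy (hsi e ▸ hv)
  · rintro (h | ⟨v, hv, e⟩)
    · simp at h
    · exact hu (hsi e ▸ hv)
  · rintro (h | ⟨v, hv, e⟩)
    · simp at h
    · exact hw (hsi e ▸ hv)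
  · rw [← hj, ← Set.ncard_image_of_injective _ hsi]
    congr 1
    ext z
    constructor
    · rintro ⟨(rfl | ⟨v, hv, rfl⟩), hvx, hvy⟩
      · exact absurd trivial hvy
      · exact ⟨v, ⟨hv, fun h => hvx (congrArg some h), hvy⟩, rfl⟩
    · rintro ⟨v, ⟨hv, hvx, hvy⟩, rfl⟩
      exact ⟨Or.inr ⟨v, hv, rfl⟩, fun h => hvx (hsi h), hvy⟩
  · rw [Finite.card_option]; omega

/-- Replacing an edge which does not lie in `H`. -/
theorem gad_prop {V : Type} {G : SimpleGraph V} {K : ℕ} {x a b r y s t : V}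
    (hsxy : s(s, t) ≠ s(x, y)) (hsab : s(s, t) ≠ s(a, b))
    (h : ∀ c : V → Fin K, (∀ p q, G.Adj p q → s(p, q) ≠ s(x, y) → s(p, q) ≠ s(a, b) → c p ≠ c q) →
        c a = c b → c y = c r) :
    ∀ c : V ⊕ Fin K → Fin K, (∀ p q, (gad G s t K).Adj p q → s(p, q) ≠ s(Sum.inl x, Sum.inl y) →
      s(p, q) ≠ s(Sum.inl a, Sum.inl b) → c p ≠ c q) → c (Sum.inl a) = c (Sum.inl b) →
        c (Sum.inl y) = c (Sum.inl r) := by
  intro c hc hab
  have hne : ∀ (u : V) (i : Fin K) (p q : V),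
      s((Sum.inl u : V ⊕ Fin K), Sum.inr i) ≠ s(Sum.inl p, Sum.inl q) := by
    intro u i p q h
    rw [Sym2.eq_iff] at h
    simp at h
  have hne2 : ∀ (i j : Fin K) (p q : V),
      s((Sum.inr i : V ⊕ Fin K), Sum.inr j) ≠ s(Sum.inl p, Sum.inl q) := by
    intro i j p q h
    rw [Sym2.eq_iff] at h
    simp at h
  have hst : c (Sum.inl s) ≠ c (Sum.inl t) := by
    refine gad_forces c ?_ ?_ ?_
    · intro i j hij; exact hc _ _ ((gad_rr i j).2 hij) (hne2 _ _ _ _) (hne2 _ _ _ _)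
    · intro i hi; exact hc _ _ ((gad_lr s i).2 (Or.inl ⟨rfl, hi⟩)) (hne _ _ _ _) (hne _ _ _ _)
    · intro i hi; exact hc _ _ ((gad_lr t i).2 (Or.inr ⟨rfl, hi⟩)) (hne _ _ _ _) (hne _ _ _ _)
  refine h (fun v => c (Sum.inl v)) ?_ hab
  intro p q hpq h1 h2
  by_cases hs : s(p, q) = s(s, t)
  · rw [Sym2.eq_iff] at hs
    rcases hs with ⟨rfl, rfl⟩ | ⟨rfl, rfl⟩
    · exact hst
    · exact hst.symm
  · refine hc _ _ ((gad_ll p q).2 ⟨hpq, hs⟩) ?_ ?_
    · intro h3
      apply h1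
      rw [Sym2.eq_iff] at h3 ⊢
      simpa using h3
    · intro h3
      apply h2
      rw [Sym2.eq_iff] at h3 ⊢
      simpa using h3

/-- One more vertex of `H` which is not adjacent to `y`. -/
theorem Cfg.more {K h j N : ℕ} (hK : 2 ≤ K) (hj : j + 1 < h) (hb : Cfg K h j N) :
    Cfg K h (j + 1) N := by
  classical
  obtain ⟨V, hV, G, H, x, a, b, r, y, u, w, hcrit, hcl, hcard, hx, ha, hb, hr, hab, hy, hxy, huw,
    hu, hw, huy, hwy, hjj, hN, hc⟩ := hb
  have hli : Function.Injective (Sum.inl : V → V ⊕ Fin K) := Sum.inl_injective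
  -- a neighbour of `y` in `H` other than `x`
  obtain ⟨v₀, hv₀, hv₀x, hv₀y⟩ : ∃ v₀ ∈ H, v₀ ≠ x ∧ G.Adj y v₀ := by
    by_contra hcon
    push Not at hcon
    have h1 : {v | v ∈ H ∧ v ≠ x ∧ ¬ G.Adj y v} = H \ {x} := by
      ext v
      simp only [Set.mem_ofPred_eq, Set.mem_sdiff, Set.mem_singleton_iff]
      exact ⟨fun h => ⟨h.1, h.2.1⟩, fun h => ⟨h.1, h.2, hcon v h.1 h.2⟩⟩
    rw [h1, Set.ncard_sdiff_singleton_of_mem hx, hcard] at hjj
    omega
  have hv₀y' : v₀ ≠ y := hv₀y.ne'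
  have hsxy : s(v₀, y) ≠ s(x, y) := by
    intro h
    rw [Sym2.eq_iff] at h
    rcases h with h | h
    · exact hv₀x h.1
    · exact hv₀y' h.1
  have hsH : ∀ p q, p ∈ H → q ∈ H → s(p, q) ≠ s(v₀, y) := by
    intro p q hp hq h
    rw [Sym2.eq_iff] at h
    rcases h with h | h
    · exact hy (h.2 ▸ hq)
    · exact hy (h.1 ▸ hp)
  refine ⟨V ⊕ Fin K, inferInstance, gad G v₀ y K, Sum.inl '' H, Sum.inl x, Sum.inl a, Sum.inl b,
    Sum.inl r, Sum.inl y, Sum.inl u, Sum.inl w, gad_crit hK hcrit hv₀y.symm, ?_, ?_, ⟨x, hx, rfl⟩,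
    ⟨a, ha, rfl⟩, ⟨b, hb, rfl⟩, ⟨r, hr, rfl⟩, fun h => hab (hli h), ?_, ?_, ?_, ?_, ?_,
    fun h => huy (hli h), fun h => hwy (hli h), ?_, ?_,
    gad_prop hsxy (hsH a b ha hb).symm hc⟩
  · rintro _ ⟨p, hp, rfl⟩ _ ⟨q, hq, rfl⟩ hpq
    exact ⟨hcl hp hq (fun h => hpq (congrArg Sum.inl h)), hsH p q hp hq⟩
  · rw [Set.ncard_image_of_injective _ hli, hcard]
  · rintro ⟨v, hv, e⟩; exact hy (hli e ▸ hv)
  · exact ⟨hxy, hsxy.symm⟩
  · refine ⟨huw, ?_⟩
    intro h
    rw [Sym2.eq_iff] at h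
    rcases h with h | h
    · exact hwy h.2
    · exact huy h.1
  · rintro ⟨v, hv, e⟩; exact hu (hli e ▸ hv)
  · rintro ⟨v, hv, e⟩; exact hw (hli e ▸ hv)
  · have h1 : {v | v ∈ (Sum.inl '' H : Set (V ⊕ Fin K)) ∧ v ≠ Sum.inl x ∧
        ¬ (gad G v₀ y K).Adj (Sum.inl y) v} =
        Sum.inl '' (insert v₀ {v | v ∈ H ∧ v ≠ x ∧ ¬ G.Adj y v}) := by
      ext z
      constructor
      · rintro ⟨⟨v, hv, rfl⟩, hvx, hvy⟩
        refine ⟨v, ?_, rfl⟩
        by_cases hvv : v = v₀
        · exact Or.inl hvv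
        · refine Or.inr ⟨hv, fun h => hvx (congrArg Sum.inl h), fun h => hvy ⟨h, ?_⟩⟩
          intro h2
          rw [Sym2.eq_iff] at h2
          rcases h2 with h2 | h2
          · exact hv₀y' h2.1.symm
          · exact hvv h2.2
      · rintro ⟨v, (rfl | ⟨hv, hvx, hvy⟩), rfl⟩
        · refine ⟨⟨v, hv₀, rfl⟩, fun h => hv₀x (hli h), ?_⟩
          intro h
          exact h.2 (Sym2.eq_swap)
        · exact ⟨⟨v, hv, rfl⟩, fun h => hvx (hli h), fun h => hvy h.1⟩
    rw [h1, Set.ncard_image_of_injective _ hli, Set.ncard_insert_of_notMem ?_ (Set.toFinite _), hjj]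
    intro h
    exact h.2.2 hv₀y
  · rw [Nat.card_sum]; omega

/-- Larger graphs. -/
theorem Cfg.larger {K h j N : ℕ} (hK : 2 ≤ K) (hb : Cfg K h j N) : Cfg K h j (N + 1) := by
  classical
  obtain ⟨V, hV, G, H, x, a, b, r, y, u, w, hcrit, hcl, hcard, hx, ha, hb, hr, hab, hy, hxy, huw,
    hu, hw, huy, hwy, hjj, hN, hc⟩ := hb
  have hli : Function.Injective (Sum.inl : V → V ⊕ Fin K) := Sum.inl_injective
  have hsH : ∀ p q, p ∈ H → s(p, q) ≠ s(u, w) := by
    intro p q hp h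
    rw [Sym2.eq_iff] at h
    rcases h with h | h
    · exact hu (h.1 ▸ hp)
    · exact hw (h.1 ▸ hp)
  have hsy : ∀ q, s(y, q) ≠ s(u, w) := by
    intro q h
    rw [Sym2.eq_iff] at h
    rcases h with h | h
    · exact huy h.1.symm
    · exact hwy h.1.symm
  refine ⟨V ⊕ Fin K, inferInstance, gad G u w K, Sum.inl '' H, Sum.inl x, Sum.inl a, Sum.inl b,
    Sum.inl r, Sum.inl y, Sum.inr ⟨0, by omega⟩, Sum.inr ⟨1, by omega⟩, gad_crit hK hcrit huw,
    ?_, ?_, ⟨x, hx, rfl⟩,
    ⟨a, ha, rfl⟩, ⟨b, hb, rfl⟩, ⟨r, hr, rfl⟩, fun h => hab (hli h), ?_, ?_, ?_, ?_, ?_,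
    by simp, by simp, ?_, ?_,
    gad_prop (hsH x y hx).symm (hsH a b ha).symm hc⟩
  · rintro _ ⟨p, hp, rfl⟩ _ ⟨q, hq, rfl⟩ hpq
    exact ⟨hcl hp hq (fun h => hpq (congrArg Sum.inl h)), hsH p q hp⟩
  · rw [Set.ncard_image_of_injective _ hli, hcard]
  · rintro ⟨v, hv, e⟩; exact hy (hli e ▸ hv)
  · exact ⟨hxy, hsH x y hx⟩
  · rw [gad_rr]
    intro h
    have := congrArg Fin.val h
    simp at this
  · rintro ⟨v, hv, e⟩; simp at e
  · rintro ⟨v, hv, e⟩; simp at e
  · rw [← hjj, ← Set.ncard_image_of_injective _ hli]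
    congr 1
    ext z
    constructor
    · rintro ⟨⟨v, hv, rfl⟩, hvx, hvy⟩
      exact ⟨v, ⟨hv, fun h => hvx (congrArg Sum.inl h), fun h => hvy ⟨h, hsy v⟩⟩, rfl⟩
    · rintro ⟨v, ⟨hv, hvx, hvy⟩, rfl⟩
      exact ⟨⟨v, hv, rfl⟩, fun h => hvx (hli h), fun h => hvy h.1⟩
  · rw [Nat.card_sum, Nat.card_eq_fintype_card (α := Fin K), Fintype.card_fin]; omega

end Pool.Agent.Y54.DH
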